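import Pool.Agent.H978Z.Weyl.Main

namespace Pool.Agent.Results.MP_3c4aa6_nt.Multifractal

open Filter Asymptotics MeasureTheory

/-- The Weyl sum `S_d(x; N)`: the sum over `1 ≤ n ≤ N` of
`exp(2 pi i (x_1 n + x_2 n^2 + ... + x_d n^d))`; the coordinate `x j` is `x_(j+1)`. -/
noncomputable def weylSum (d : ℕ) (x : EuclideanSpace ℝ (Fin d)) (N : ℕ) : ℂ :=
  ∑ n ∈ Finset.Icc 1 N,
    Complex.exp (2 * Real.pi * Complex.I * ((∑ j : Fin d, x j * (n : ℝ) ^ ((j : ℕ) + 1) : ℝ) : ℂ))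

/-- The growth exponent: the infimum of the `s > 0` with `S_d(x; N) = O(N^s)`. -/
noncomputable def growthExp (d : ℕ) (x : EuclideanSpace ℝ (Fin d)) : ℝ :=
  sInf {s : ℝ | 0 < s ∧ (fun N : ℕ => weylSum d x N) =O[atTop] (fun N : ℕ => (N : ℝ) ^ s)}

/-- The level set of the growth exponent inside the unit torus `[0,1)^d`. -/
def levelSet (d : ℕ) (α : ℝ) : Set (EuclideanSpace ℝ (Fin d)) :=
  {x | (∀ j, x j ∈ Set.Ico (0 : ℝ) 1) ∧ growthExp d x = α}

open Pool.Agent.H978Z.Weyl in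
theorem result : ∀ d : ℕ, 2 ≤ d → ∃ A : Set ℝ, A = Set.Ico (3 / 4) 1 ∧ A ⊆ Set.Icc 0 1 ∧
    0 < volume A ∧ ∀ α ∈ A, 0 < dimH (levelSet d α) := by
  intro d hd
  refine ⟨_, rfl, fun α hα => ⟨by linarith [hα.1], hα.2.le⟩, by simp; norm_num, ?_⟩
  rintro α ⟨h1, h2⟩
  obtain ⟨θ, hθ, E, hE, hdim, hσ⟩ := exponent_eq h1 h2
  obtain ⟨m, rfl⟩ : ∃ m, d = m + 2 := ⟨d - 2, by omega⟩
  have hlip : LipschitzWith 1 (fun x : EuclideanSpace ℝ (Fin (m + 2)) => x 0) := by
    apply LipschitzWith.of_dist_le_mul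
    intro x y
    simpa using PiLp.dist_apply_le x y 0
  refine hdim.trans_le (le_trans (dimH_mono ?_) (hlip.dimH_image_le (levelSet (m + 2) α)))
  intro t ht
  set v : Fin (m + 2) → ℝ := Fin.cons t (Fin.cons θ (fun _ => 0)) with hv
  have hS : ∀ N, weylSum (m + 2) (WithLp.toLp 2 v) N = S2 t θ N := by
    intro N
    unfold weylSum S2
    induction N with
    | zero => simp
    | succ N ih =>
      rw [Finset.sum_Icc_succ_top (by omega), Finset.sum_range_succ, ih]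
      congr 1
      unfold e
      congr 3
      simp [hv, Fin.sum_univ_succ]
  refine ⟨WithLp.toLp 2 v, ⟨?_, ?_⟩, by simp [hv]⟩
  · intro j
    refine Fin.cases ?_ (fun j => Fin.cases ?_ (fun j => ?_) j) j
    · simpa [hv] using hE ht
    · simpa [hv] using hθ
    · simp [hv]
  · unfold growthExp
    simp only [hS]
    exact hσ t ht

end Pool.Agent.Results.MP_3c4aa6_nt.Multifractal
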